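import Mathlib
import Pool.Agent.H2.GQ.Main

/-!
# There is no generalized quadrangle of order (4, 11)

An incidence structure with finitely many points and lines which satisfies the three axioms of a
generalized quadrangle of order `(4, 11)` is empty: it has no point and no line.
-/

namespace Pool.Agent.Results.MP_a3aa3c_co.NoOrderFourEleven

/-- `I : P → L → Prop` (incidence between the points `P` and the lines `L`) satisfies the axioms of a
generalized quadrangle of order `(s, t)`. -/
structure IsGQ {P L : Type*} (I : P → L → Prop) (s t : ℕ) : Prop where
  /-- each line is incident with exactly `s + 1` points -/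
  line_points : ∀ l, Nat.card {p // I p l} = s + 1
  /-- each point is incident with exactly `t + 1` lines -/
  point_lines : ∀ p, Nat.card {l // I p l} = t + 1
  /-- two distinct points are incident with at most one common line -/
  unique_line : ∀ p q l m, p ≠ q → I p l → I q l → I p m → I q m → l = m
  /-- for a point `p` and a line `l` not incident with `p` there is exactly one pair `(q, m)` with
  `q` a point on `l`, `m` a line through `p`, and `q` incident with `m` -/
  proj : ∀ p l, ¬ I p l → ∃! qm : P × L, I qm.1 l ∧ I p qm.2 ∧ I qm.1 qm.2

/-- **No generalized quadrangle of order (4, 11).** A finite incidence structure satisfying the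
axioms with `(s, t) = (4, 11)` has no points and no lines. -/
theorem result {P L : Type*} [Finite P] [Finite L] (I : P → L → Prop) (h : IsGQ I 4 11) :
    IsEmpty P ∧ IsEmpty L := by
  classical
  have := Fintype.ofFinite P
  have := Fintype.ofFinite L
  have hP : IsEmpty P := by
    by_contra hne
    rw [not_isEmpty_iff] at hne
    exact Pool.Agent.H2.GQ.not_isGQ
      (I := I) ⟨h.line_points, h.point_lines, h.unique_line, h.proj⟩
  refine ⟨hP, ⟨fun l => ?_⟩⟩
  have h1 := h.line_points l
  have : IsEmpty {p // I p l} := ⟨fun p => hP.elim p.1⟩
  rw [Nat.card_of_isEmpty] at h1
  omega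

end Pool.Agent.Results.MP_a3aa3c_co.NoOrderFourEleven
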