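import Pool.Agent.H80.GQ.Final

/-!
# There is no generalized quadrangle of order (s, s^2 - s) with s ≥ 3

In particular (s = 4, t = 12) there is no generalized quadrangle of order (4, 12): question Q2.

`H60GQ.IsGQ I s t` (file `Pool/Agent/H60/GQ/Basic.lean`) are the axioms 1-3 of the problem file for
an incidence relation `I`.

Proof. Let `A` be the collinearity matrix, `G = (s^2 - 1) - (s + 1) A + J`, `c = s^2 (s + 1)`. A function
on the points is balanced if its sum over each line is zero; the columns of `G` are balanced and
`G f = c f` for balanced `f`. For a point `x` let `K_x` be the diagonal matrix with entry `1` at the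
points adjacent to `x`, `-(s - 2)` at `x`, and `H_x = G - G K_x G / (s (s + 1))`.

1. `G K_x f = s (s + 1) f` on the points collinear with `x`, for balanced `f`. Hence `H_x` is `c` times an
   orthogonal projection, vanishes at the points collinear with `x`, and at the other points `y`, `z` its
   entry is `((s + 1) / s) (s - m - s [y ~ z] + (s^2 - s) [y = z])`, `m` the number of common neighbours of
   `x`, `y`, `z`.
2. For a line `l`, the sum of `H_q`, `q` on `l`, is `G - G D_l G / (s (s + 1))`; multiplied by `H_x`, `x` on
   `l`, it is `c H_x = H_x H_x`. As all terms `H_x H_q H_x` are positive semidefinite, `H_x H_q = 0` for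
   collinear distinct `x`, `q`. Hence `H_x D_{N(p)} H_x = s (s + 1) H_x` for `p` adjacent to `x`.
3. This gives the trilinear form `T(a, b, y)`, the sum over `u` of `H_x(a, u) H_x(b, u) H_x(y, u)`, in terms
   of `H_x D_{N(y)} H_x`, and `T(y, y, b) = (s + 1)^2 (s - 2) H_x(y, b)`.
4. For adjacent `y`, `z` not collinear with `x`, the quadratic form of `H_x H_y H_x` vanishes at
   `(s - 1) e_z + e_y`. Hence `H_x D_{N(y)} H_x (a, z) = s (s + 1) H_x(a, z) + ((s + 1) / s) H_x(a, y)`.
5. Hence the matrix of the entries `H_x(a, b) - (s + 1) / (s (s - 1))`, `a`, `b` in `N(y)` not collinear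
   with `x`, is `s (s + 1)` times a projection. Its rank is `(s^2 - s + 1) (s - 2) / s`, so `s` divides 2.
-/

namespace Pool.Agent.Results.MP_a3aa3c_co.NoOrderSSquareMinusS

open H60GQ

theorem result {P : Type*} {L : Type*} [Finite P] [Finite L] [Nonempty P] (I : P → L → Prop)
    (s t : ℕ) (hs : 3 ≤ s) (hst : t + s = s ^ 2) : ¬ IsGQ I s t :=
  fun h => H80GQ.no_gq I s t hs hst h

end Pool.Agent.Results.MP_a3aa3c_co.NoOrderSSquareMinusS
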